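import Pool.Agent.Run7.h242.FlarbMain

open Run7.h242.Flarb

namespace Pool.Agent.Results.MP_5c307f_lc.LogarithmicFlarbs

/-- For every `d` there is a sequence of `n = 2 ^ d` flarbs starting from the empty tree with more
than `(n / 2) log₂ n - n` pointer changes; hence for every constant `C` there are sequences of
`n` flarbs with more than `C n` pointer changes. -/
theorem result :
    (∀ d : ℕ, ∃ T S, IsFlarbSeq (2 ^ d) T S ∧
      (d : ℝ) / 2 * 2 ^ d - 2 ^ d < (totalCost (2 ^ d) T : ℝ)) ∧
    ∀ C : ℝ, ∃ n T S, IsFlarbSeq n T S ∧ C * (n : ℝ) < (totalCost n T : ℝ) :=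
  main_flarb

end Pool.Agent.Results.MP_5c307f_lc.LogarithmicFlarbs
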